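import Pool.Agent.TH279.RI.DefsT

/-!
A Calderon-Zygmund operator whose kernel representation is assumed for smooth compactly supported
functions has the same representation for bounded compactly supported functions.
-/

set_option autoImplicit false

open MeasureTheory Metric Filter Topology
open scoped ENNReal NNReal ContDiff
open Pool.Agent.H433R3.Sep
open Pool.Agent.TH279.RI

namespace Pool.Agent.TH266.RI

variable {d : ℕ} {𝕜 : Type*} [RCLike 𝕜]

lemma el_eq_norm (x : Fin d → ℝ) : el x = ‖(WithLp.toLp 2 x : EuclideanSpace ℝ (Fin d))‖ := by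
  rw [EuclideanSpace.norm_eq]
  unfold el
  congr 1
  apply Finset.sum_congr rfl
  intro i _
  simp

lemma el_add_le (x y : Fin d → ℝ) : el (x + y) ≤ el x + el y := by
  rw [el_eq_norm, el_eq_norm, el_eq_norm, WithLp.toLp_add]
  exact norm_add_le _ _

lemma el_cont : Continuous (fun x : Fin d → ℝ => el x) := by
  unfold el
  fun_prop

lemma el_zero : el (0 : Fin d → ℝ) = 0 := by
  unfold el; simp

lemma el_pos {x : Fin d → ℝ} (hx : x ≠ 0) : 0 < el x :=
  lt_of_lt_of_le (norm_pos_iff.2 hx) (norm_le_el x)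

variable {T : Lp 𝕜 2 (volume : Measure (Fin d → ℝ)) →L[𝕜]
    Lp 𝕜 2 (volume : Measure (Fin d → ℝ))}
  {K : (Fin d → ℝ) → (Fin d → ℝ) → 𝕜}

/-- Kernel regularity in the form of the library. -/
lemma reg_of (hT : IsCZ T K) : ∃ C α : ℝ, 0 < α ∧ α ≤ 1 ∧ ∀ x x' y : Fin d → ℝ, x ≠ y →
    el (x - x') ≤ el (x - y) / 2 →
    ‖K x y - K x' y‖ + ‖K y x - K y x'‖ ≤ C * el (x - x') ^ α / el (x - y) ^ ((d : ℝ) + α) := by
  obtain ⟨C1, hC1⟩ := hT.size
  obtain ⟨C, ε, hε, hreg⟩ := hT.reg
  set α : ℝ := min ε 1 with hα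
  have hα0 : 0 < α := lt_min hε one_pos
  have hα1 : α ≤ 1 := min_le_right _ _
  have hαε : α ≤ ε := min_le_left _ _
  refine ⟨max C 0 + 2 * (max C1 0 * (2 + 2 * 2 ^ d)), α, hα0, hα1, ?_⟩
  intro x x' y hxy hle
  set r := el (x - x') with hr
  set s := el (x - y) with hs
  have hs0 : 0 < s := el_pos (sub_ne_zero.2 hxy)
  have hr0 : 0 ≤ r := el_nonneg _
  have hA : 0 ≤ max C1 0 * (2 + 2 * 2 ^ d) := by positivity
  have hden : 0 < s ^ ((d : ℝ) + α) := Real.rpow_pos_of_pos hs0 _
  rcases lt_or_eq_of_le hle with hlt | heq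
  · have h1 := hreg x x' y (by rw [← hr, ← hs]; linarith)
    rw [← hr, ← hs] at h1
    refine h1.trans ?_
    have h2 : r ^ ε / s ^ ((d : ℝ) + ε) ≤ r ^ α / s ^ ((d : ℝ) + α) := by
      have e1 : r ^ ε / s ^ ((d : ℝ) + ε) = (r / s) ^ ε / s ^ (d : ℝ) := by
        rw [Real.div_rpow hr0 hs0.le, Real.rpow_add hs0, div_div, mul_comm]
      have e2 : r ^ α / s ^ ((d : ℝ) + α) = (r / s) ^ α / s ^ (d : ℝ) := by
        rw [Real.div_rpow hr0 hs0.le, Real.rpow_add hs0, div_div, mul_comm]
      rw [e1, e2]
      apply div_le_div_of_nonneg_right _ (Real.rpow_nonneg hs0.le _)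
      rcases eq_or_lt_of_le hr0 with h0 | h0
      · rw [← h0, zero_div, Real.zero_rpow hε.ne', Real.zero_rpow hα0.ne']
      · apply Real.rpow_le_rpow_of_exponent_ge (by positivity) _ hαε
        rw [div_le_one hs0]; linarith
    have h3 : 0 ≤ r ^ ε / s ^ ((d : ℝ) + ε) :=
      div_nonneg (Real.rpow_nonneg hr0 _) (Real.rpow_nonneg hs0.le _)
    calc C * r ^ ε / s ^ ((d : ℝ) + ε) = C * (r ^ ε / s ^ ((d : ℝ) + ε)) := by rw [mul_div_assoc]
      _ ≤ max C 0 * (r ^ ε / s ^ ((d : ℝ) + ε)) :=
          mul_le_mul_of_nonneg_right (le_max_left _ _) h3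
      _ ≤ max C 0 * (r ^ α / s ^ ((d : ℝ) + α)) :=
          mul_le_mul_of_nonneg_left h2 (le_max_right _ _)
      _ ≤ (max C 0 + 2 * (max C1 0 * (2 + 2 * 2 ^ d))) * (r ^ α / s ^ ((d : ℝ) + α)) := by
          apply mul_le_mul_of_nonneg_right _ (h3.trans h2)
          linarith
      _ = _ := by rw [mul_div_assoc]
  · have hrs : r = s / 2 := heq
    have htri : s ≤ r + el (x' - y) := by
      have := el_add_le (x - x') (x' - y)
      rw [sub_add_sub_cancel] at this
      exact this
    have hx'y : s / 2 ≤ el (x' - y) := by linarith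
    have hne' : x' ≠ y := by
      intro h
      rw [h, sub_self, el_zero] at hx'y
      linarith
    have key : ∀ u v : Fin d → ℝ, u ≠ v → s / 2 ≤ el (u - v) →
        ‖K u v‖ ≤ max C1 0 * 2 ^ d / s ^ d := by
      intro u v huv hle
      refine (hC1 u v huv).trans ?_
      have h5 : 0 < el (u - v) := el_pos (sub_ne_zero.2 huv)
      calc C1 / el (u - v) ^ d ≤ max C1 0 / el (u - v) ^ d :=
            div_le_div_of_nonneg_right (le_max_left _ _) (by positivity)
        _ ≤ max C1 0 / (s / 2) ^ d :=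
            div_le_div_of_nonneg_left (le_max_right _ _) (by positivity)
              (pow_le_pow_left₀ (by positivity) hle d)
        _ = max C1 0 * 2 ^ d / s ^ d := by rw [div_pow]; field_simp
    have key2 : ∀ u v : Fin d → ℝ, u ≠ v → s ≤ el (u - v) →
        ‖K u v‖ ≤ max C1 0 / s ^ d := by
      intro u v huv hle
      refine (hC1 u v huv).trans ?_
      have h5 : 0 < el (u - v) := el_pos (sub_ne_zero.2 huv)
      calc C1 / el (u - v) ^ d ≤ max C1 0 / el (u - v) ^ d :=
            div_le_div_of_nonneg_right (le_max_left _ _) (by positivity)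
        _ ≤ max C1 0 / s ^ d :=
            div_le_div_of_nonneg_left (le_max_right _ _) (by positivity)
              (pow_le_pow_left₀ (by positivity) hle d)
    have b1 := key2 x y hxy le_rfl
    have b2 := key2 y x hxy.symm (by rw [el_sub_comm])
    have b3 := key x' y hne' hx'y
    have b4 := key y x' hne'.symm (by rw [el_sub_comm]; exact hx'y)
    have h6 : ‖K x y - K x' y‖ + ‖K y x - K y x'‖ ≤
        max C1 0 * (2 + 2 * 2 ^ d) / s ^ d := by
      calc ‖K x y - K x' y‖ + ‖K y x - K y x'‖
          ≤ (‖K x y‖ + ‖K x' y‖) + (‖K y x‖ + ‖K y x'‖) :=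
            add_le_add (norm_sub_le _ _) (norm_sub_le _ _)
        _ ≤ (max C1 0 / s ^ d + max C1 0 * 2 ^ d / s ^ d) +
            (max C1 0 / s ^ d + max C1 0 * 2 ^ d / s ^ d) :=
            add_le_add (add_le_add b1 b3) (add_le_add b2 b4)
        _ = _ := by ring
    have h7 : r ^ α / s ^ ((d : ℝ) + α) = (1 / 2) ^ α / s ^ d := by
      rw [hrs, Real.rpow_add hs0, Real.rpow_natCast, Real.div_rpow hs0.le (by norm_num),
        Real.div_rpow (by norm_num) (by norm_num), Real.one_rpow]
      have : s ^ α ≠ 0 := (Real.rpow_pos_of_pos hs0 _).ne'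
      field_simp
    have h8 : (1 / 2 : ℝ) ≤ (1 / 2) ^ α := by
      calc (1 / 2 : ℝ) = (1 / 2) ^ (1 : ℝ) := (Real.rpow_one _).symm
        _ ≤ (1 / 2) ^ α := Real.rpow_le_rpow_of_exponent_ge (by norm_num) (by norm_num) hα1
    have hsd : 0 < s ^ d := by positivity
    refine h6.trans ?_
    rw [show (max C 0 + 2 * (max C1 0 * (2 + 2 * 2 ^ d))) * r ^ α / s ^ ((d : ℝ) + α) =
      (max C 0 + 2 * (max C1 0 * (2 + 2 * 2 ^ d))) * (r ^ α / s ^ ((d : ℝ) + α)) from
      mul_div_assoc _ _ _, h7]
    calc max C1 0 * (2 + 2 * 2 ^ d) / s ^ d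
        = (2 * (max C1 0 * (2 + 2 * 2 ^ d))) * ((1 / 2) / s ^ d) := by ring
      _ ≤ (2 * (max C1 0 * (2 + 2 * 2 ^ d))) * ((1 / 2) ^ α / s ^ d) := by
          apply mul_le_mul_of_nonneg_left _ (by positivity)
          exact div_le_div_of_nonneg_right h8 hsd.le
      _ ≤ (max C 0 + 2 * (max C1 0 * (2 + 2 * 2 ^ d))) * ((1 / 2) ^ α / s ^ d) := by
          apply mul_le_mul_of_nonneg_right _ (by positivity)
          have := le_max_right C 0
          linarith

lemma ker_meas (hd : 0 < d) (hT : IsCZ T K) (x : Fin d → ℝ) :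
    AEStronglyMeasurable (fun y => K x y) (volume : Measure (Fin d → ℝ)) := by
  obtain ⟨C, ε, hε, hreg⟩ := hT.reg
  have hcont : ContinuousOn (fun y => K x y) {x}ᶜ := by
    intro y₀ hy₀
    have hne : y₀ ≠ x := hy₀
    have hs0 : 0 < el (y₀ - x) := el_pos (sub_ne_zero.2 hne)
    apply ContinuousAt.continuousWithinAt
    have hlim : Tendsto (fun y => C * el (y₀ - y) ^ ε / el (y₀ - x) ^ ((d : ℝ) + ε)) (𝓝 y₀)
        (𝓝 0) := by
      have hc : ContinuousAt (fun y => C * el (y₀ - y) ^ ε / el (y₀ - x) ^ ((d : ℝ) + ε)) y₀ := by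
        apply ContinuousAt.div_const
        apply ContinuousAt.mul continuousAt_const
        apply ContinuousAt.rpow_const
        · exact (el_cont.comp (continuous_const.sub continuous_id)).continuousAt
        · right; exact hε.le
      have := hc.tendsto
      rw [sub_self, el_zero, Real.zero_rpow hε.ne', mul_zero, zero_div] at this
      exact this
    have hnear : ∀ᶠ y in 𝓝 y₀, 2 * el (y₀ - y) < el (y₀ - x) := by
      have hc : ContinuousAt (fun y => 2 * el (y₀ - y)) y₀ :=
        (continuous_const.mul (el_cont.comp (continuous_const.sub continuous_id))).continuousAt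
      have := hc.tendsto
      rw [sub_self, el_zero, mul_zero] at this
      exact this.eventually (gt_mem_nhds hs0)
    rw [ContinuousAt, tendsto_iff_norm_sub_tendsto_zero]
    apply squeeze_zero' (Eventually.of_forall fun _ => norm_nonneg _) _ hlim
    filter_upwards [hnear] with y hy
    have h1 := hreg y₀ y x hy
    have h2 := norm_nonneg (K y₀ x - K y x)
    rw [norm_sub_rev]
    linarith
  have h1 := hcont.aestronglyMeasurable (μ := (volume : Measure (Fin d → ℝ)))
    (measurableSet_singleton x).compl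
  have : Nonempty (Fin d) := ⟨⟨0, hd⟩⟩
  have h2 : (volume : Measure (Fin d → ℝ)).restrict {x}ᶜ = volume := by
    apply Measure.restrict_eq_self_of_ae_mem
    exact compl_mem_ae_iff.2 (measure_singleton x)
  rwa [h2] at h1

/-- The mollifiers. -/
noncomputable def bump (d : ℕ) (k : ℕ) : ContDiffBump (0 : Fin d → ℝ) where
  rIn := 1 / (2 * ((k : ℝ) + 1))
  rOut := 1 / ((k : ℝ) + 1)
  rIn_pos := by positivity
  rIn_lt_rOut := by
    apply one_div_lt_one_div_of_lt (by positivity)
    have : (0 : ℝ) < (k : ℝ) + 1 := by positivity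
    linarith

/-- The mollified functions. -/
noncomputable def moll (f : (Fin d → ℝ) → 𝕜) (k : ℕ) : (Fin d → ℝ) → 𝕜 :=
  convolution ((bump d k).normed volume) f (ContinuousLinearMap.lsmul ℝ ℝ) volume

lemma moll_contDiff {f : (Fin d → ℝ) → 𝕜} (hf : LocallyIntegrable f volume) (k : ℕ) :
    ContDiff ℝ ∞ (moll f k) :=
  (bump d k).hasCompactSupport_normed.contDiff_convolution_left _ (bump d k).contDiff_normed hf

lemma moll_compact {f : (Fin d → ℝ) → 𝕜} (hf : HasCompactSupport f) (k : ℕ) :
    HasCompactSupport (moll f k) :=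
  (bump d k).hasCompactSupport_normed.convolution _ hf

lemma moll_near {f : (Fin d → ℝ) → 𝕜} {B : ℝ} (hm : AEStronglyMeasurable f volume)
    (hB : ∀ x, ‖f x‖ ≤ B) (k : ℕ) (x : Fin d → ℝ) : ‖moll f k x - f x‖ ≤ 2 * B := by
  rw [← dist_eq_norm]
  apply (bump d k).dist_normed_convolution_le hm
  intro y _
  rw [dist_eq_norm]
  have := norm_sub_le (f y) (f x)
  have h1 := hB x
  have h2 := hB y
  linarith

lemma moll_zero {f : (Fin d → ℝ) → 𝕜} (k : ℕ) {x : Fin d → ℝ}
    (h : ∀ y ∈ ball x (1 / ((k : ℝ) + 1)), f y = 0) : moll f k x = 0 := by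
  have h0 : f x = 0 := h x (mem_ball_self (by positivity))
  have := (bump d k).normed_convolution_eq_right (μ := (volume : Measure (Fin d → ℝ)))
    (g := f) (x₀ := x) (fun y hy => by rw [h0]; exact h y hy)
  rw [h0] at this
  exact this

lemma moll_ae {f : (Fin d → ℝ) → 𝕜} (hf : LocallyIntegrable f volume) :
    ∀ᵐ x ∂(volume : Measure (Fin d → ℝ)), Tendsto (fun k => moll f k x) atTop (𝓝 (f x)) := by
  apply ContDiffBump.ae_convolution_tendsto_right_of_locallyIntegrable (K := 2) _ _ hf
  · show Tendsto (fun k : ℕ => 1 / ((k : ℝ) + 1)) atTop (𝓝 0)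
    exact tendsto_one_div_add_atTop_nhds_zero_nat
  · apply Eventually.of_forall
    intro k
    show 1 / ((k : ℝ) + 1) ≤ 2 * (1 / (2 * ((k : ℝ) + 1)))
    apply le_of_eq
    field_simp

/-- The representation for bounded compactly supported functions. -/
lemma rep_of (hd : 0 < d) (hT : IsCZ T K) (f : (Fin d → ℝ) → 𝕜) (hf : MemLp f 2 volume)
    (hB : ∃ B : ℝ, ∀ x, ‖f x‖ ≤ B) (hc : HasCompactSupport f) :
    ∀ᵐ x, x ∉ tsupport f → T (hf.toLp f) x = ∫ y, K x y * f y := by
  obtain ⟨B, hB⟩ := hB
  have hB0 : 0 ≤ B := (norm_nonneg _).trans (hB 0)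
  have hm := hf.aestronglyMeasurable
  set A : Set (Fin d → ℝ) := cthickening 1 (tsupport f) with hA
  have hAc : IsCompact A := hc.isCompact.cthickening
  have hAm : MeasurableSet A := isClosed_cthickening.measurableSet
  have hAfin : volume A < (⊤ : ℝ≥0∞) := hAc.measure_lt_top
  have hfA : ∀ x, x ∉ A → f x = 0 := fun x hx =>
    image_eq_zero_of_notMem_tsupport (fun h => hx (self_subset_cthickening _ h))
  have hint : Integrable f volume := by
    have h1 : Integrable (A.indicator (fun _ => B)) (volume : Measure (Fin d → ℝ)) :=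
      (integrable_indicator_iff hAm).2 (integrableOn_const hAfin.ne)
    refine h1.mono' hm (Eventually.of_forall fun x => ?_)
    by_cases hx : x ∈ A
    · rw [Set.indicator_of_mem hx]; exact hB x
    · rw [Set.indicator_of_notMem hx, hfA x hx, norm_zero]
  have hloc : LocallyIntegrable f volume := hint.locallyIntegrable
  have hgA : ∀ k x, x ∉ A → moll f k x = 0 := by
    intro k x hx
    apply moll_zero
    intro y hy
    apply image_eq_zero_of_notMem_tsupport
    intro hy'
    apply hx
    rw [hA]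
    apply mem_cthickening_of_dist_le x y 1 _ hy'
    rw [mem_ball, dist_comm] at hy
    apply hy.le.trans
    rw [div_le_one (by positivity)]
    linarith [(Nat.cast_nonneg k : (0 : ℝ) ≤ k)]
  have hg3 : ∀ k x, ‖moll f k x‖ ≤ 3 * B := by
    intro k x
    have h1 := moll_near hm hB k x
    have h2 := hB x
    have h3 : ‖moll f k x‖ ≤ ‖moll f k x - f x‖ + ‖f x‖ := by
      have := norm_add_le (moll f k x - f x) (f x)
      rwa [sub_add_cancel] at this
    linarith
  have hgsm : ∀ k, ContDiff ℝ ∞ (moll f k) := moll_contDiff hloc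
  have hgc : ∀ k, HasCompactSupport (moll f k) := moll_compact hc
  have hgm : ∀ k, MemLp (moll f k) 2 volume := fun k =>
    (hgsm k).continuous.memLp_of_hasCompactSupport (hgc k)
  have hae := moll_ae hloc
  -- convergence in `L²`
  have hL2 : Tendsto (fun k => (hgm k).toLp (moll f k)) atTop (𝓝 (hf.toLp f)) := by
    rw [Lp.tendsto_Lp_iff_tendsto_eLpNorm'']
    have hlin : Tendsto (fun k => ∫⁻ x, ‖moll f k x - f x‖ₑ ^ (2 : ℝ)) atTop (𝓝 0) := by
      have h0 : (∫⁻ _x : Fin d → ℝ, (0 : ℝ≥0∞)) = 0 := lintegral_zero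
      rw [← h0]
      apply tendsto_lintegral_of_dominated_convergence'
        (A.indicator (fun _ => ENNReal.ofReal (2 * B) ^ (2 : ℝ)))
      · intro k
        exact ((((hgm k).aestronglyMeasurable.sub hm).enorm).pow_const 2)
      · intro k
        apply Eventually.of_forall
        intro x
        by_cases hx : x ∈ A
        · rw [Set.indicator_of_mem hx]
          show ‖moll f k x - f x‖ₑ ^ (2 : ℝ) ≤ _
          apply ENNReal.rpow_le_rpow _ (by norm_num)
          rw [← ofReal_norm]
          exact ENNReal.ofReal_le_ofReal (moll_near hm hB k x)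
        · rw [Set.indicator_of_notMem hx]
          show ‖moll f k x - f x‖ₑ ^ (2 : ℝ) ≤ _
          rw [hgA k x hx, hfA x hx, sub_zero, enorm_zero, ENNReal.zero_rpow_of_pos (by norm_num)]
      · rw [lintegral_indicator hAm, lintegral_const]
        apply ENNReal.mul_ne_top
        · exact ENNReal.rpow_ne_top_of_nonneg (by norm_num) ENNReal.ofReal_ne_top
        · rw [Measure.restrict_apply_univ]; exact hAfin.ne
      · filter_upwards [hae] with x hx
        have h1 : Tendsto (fun k => ‖moll f k x - f x‖ₑ) atTop (𝓝 0) := by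
          have h2 : Tendsto (fun k => moll f k x - f x) atTop (𝓝 0) := by
            have := hx.sub_const (f x)
            rwa [sub_self] at this
          have := h2.enorm
          rwa [enorm_zero] at this
        have h3 := ((ENNReal.continuous_rpow_const (y := 2)).tendsto 0).comp h1
        rwa [ENNReal.zero_rpow_of_pos (by norm_num)] at h3
    have hpow := ((ENNReal.continuous_rpow_const (y := 1 / 2)).tendsto 0).comp hlin
    rw [ENNReal.zero_rpow_of_pos (by norm_num)] at hpow
    refine hpow.congr fun k => ?_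
    rw [eLpNorm_eq_lintegral_rpow_enorm_toReal (by norm_num) (by norm_num)]
    simp
  have hTL := (T.continuous.tendsto (hf.toLp f)).comp hL2
  obtain ⟨ns, hns, hsub⟩ := (tendstoInMeasure_of_tendsto_Lp hTL).exists_seq_tendsto_ae
  have hrep : ∀ᵐ x, ∀ k, x ∉ tsupport (moll f k) →
      T ((hgm k).toLp (moll f k)) x = ∫ y, K x y * moll f k y :=
    ae_all_iff.2 fun k => hT.rep _ (hgm k) (hgsm k) (hgc k)
  obtain ⟨C, hC⟩ := hT.size
  filter_upwards [hrep, hsub] with x h1 h2 hx
  obtain ⟨r, hr, hball⟩ := Metric.isOpen_iff.1 (isClosed_tsupport f).isOpen_compl x hx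
  have hev : ∀ᶠ k : ℕ in atTop, 1 / ((k : ℝ) + 1) < r / 2 :=
    tendsto_one_div_add_atTop_nhds_zero_nat.eventually (gt_mem_nhds (by linarith))
  have hzero : ∀ᶠ k : ℕ in atTop, ∀ y ∈ ball x (r / 2), moll f k y = 0 := by
    filter_upwards [hev] with k hk y hy
    apply moll_zero
    intro z hz
    apply image_eq_zero_of_notMem_tsupport
    apply hball
    rw [mem_ball] at hy hz ⊢
    linarith [dist_triangle z y x]
  have hnot : ∀ᶠ k : ℕ in atTop, x ∉ tsupport (moll f k) := by
    filter_upwards [hzero] with k hk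
    rw [notMem_tsupport_iff_eventuallyEq]
    filter_upwards [ball_mem_nhds x (by linarith : 0 < r / 2)] with y hy
    exact hk y hy
  have hlim1 : Tendsto (fun k => T ((hgm (ns k)).toLp (moll f (ns k))) x) atTop
      (𝓝 (T (hf.toLp f) x)) := h2
  have hlim2 : Tendsto (fun k => ∫ y, K x y * moll f k y) atTop (𝓝 (∫ y, K x y * f y)) := by
    apply tendsto_integral_filter_of_dominated_convergence
      (A.indicator (fun _ => (|C| / (r / 2) ^ d) * (3 * B)))
    · exact Eventually.of_forall fun k =>
        (ker_meas hd hT x).mul (hgm k).aestronglyMeasurable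
    · filter_upwards [hzero] with k hk
      apply Eventually.of_forall
      intro y
      by_cases hy : y ∈ A
      · rw [Set.indicator_of_mem hy]
        by_cases hyb : y ∈ ball x (r / 2)
        · rw [hk y hyb, mul_zero, norm_zero]; positivity
        · rw [norm_mul]
          rw [mem_ball, not_lt, dist_comm, dist_eq_norm] at hyb
          have hne : x ≠ y := by
            intro h
            rw [h, sub_self, norm_zero] at hyb
            linarith
          apply mul_le_mul _ (hg3 k y) (norm_nonneg _) (by positivity)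
          refine (hC x y hne).trans ?_
          have h5 : 0 < el (x - y) := el_pos (sub_ne_zero.2 hne)
          have h6 : r / 2 ≤ el (x - y) := hyb.trans (norm_le_el _)
          calc C / el (x - y) ^ d ≤ |C| / el (x - y) ^ d :=
                div_le_div_of_nonneg_right (le_abs_self _) (by positivity)
            _ ≤ |C| / (r / 2) ^ d :=
                div_le_div_of_nonneg_left (abs_nonneg _) (by positivity)
                  (pow_le_pow_left₀ (by positivity) h6 d)
      · rw [Set.indicator_of_notMem hy, hgA k y hy, mul_zero, norm_zero]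
    · exact (integrable_indicator_iff hAm).2 (integrableOn_const hAfin.ne)
    · filter_upwards [hae] with y hy
      exact hy.const_mul _
  have hlim3 : Tendsto (fun k => T ((hgm (ns k)).toLp (moll f (ns k))) x) atTop
      (𝓝 (∫ y, K x y * f y)) := by
    refine (hlim2.comp hns.tendsto_atTop).congr' ?_
    filter_upwards [hns.tendsto_atTop.eventually hnot] with k hk
    exact (h1 _ hk).symm
  exact tendsto_nhds_unique hlim1 hlim3

theorem IsCZ.isCZO {d : ℕ} {𝕜 : Type*} [RCLike 𝕜]
    {T : Lp 𝕜 2 (volume : Measure (Fin d → ℝ)) →L[𝕜] Lp 𝕜 2 (volume : Measure (Fin d → ℝ))}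
    {K : (Fin d → ℝ) → (Fin d → ℝ) → 𝕜} (hd : 0 < d) (hT : IsCZ T K) : IsCZO T K where
  rep := rep_of hd hT
  size := hT.size
  reg := reg_of hT

end Pool.Agent.TH266.RI
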